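import Pool.Agent.H.MP_8f64b1_lc.A

namespace Pool.Agent.Results.MP_8f64b1_lc.Complete

open Pool.Agent.Lib.CX Pool.Agent.Lib.CX2 Pool.Agent.H.MP_8f64b1_lc

theorem result : Pi2Complete KP ∧
    (InNP (fun a => ¬KP a) ↔ ∀ A : List Bool → Prop, InNP A → InNP fun w => ¬A w) := by
  have r : Red KP fun a : Gr => ∀ S, ∃ K, IsKernel a.arc S K := ⟨fun a => a.1, PT.id.val, fun _ => Iff.rfl⟩
  refine ⟨⟨mem_gr.red r, hard⟩, fun h A hA => h.red (hard.not _ (sig2_of_conp hA)), fun h => ?_⟩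
  exact (mem_gr.not.np h).red ⟨fun a => a.1, PT.id.val, fun _ => Iff.rfl⟩

end Pool.Agent.Results.MP_8f64b1_lc.Complete
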